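import Pool.Agent.Lib.MP_6d7b3f_co.Asymp

namespace Pool.Agent.Results.MP_6d7b3f_co.GrowthRate

open Pool.Agent.Lib.MP_6d7b3f_co

/-- The growth rate of `f(W_k, n)` for every `k ≥ 2`: for `k = 2j` it is `(log n)^{1/j}`, and for
`k = 2j + 1` it is `(log n / log log n)^{1/j}`. -/
theorem result (j : ℕ) (hj : 1 ≤ j) :
    Asymptotics.IsTheta Filter.atTop (fun n : ℕ => (f (2 * j) n : ℝ))
      (fun n : ℕ => Real.log n ^ (1 / (j : ℝ))) ∧
    Asymptotics.IsTheta Filter.atTop (fun n : ℕ => (f (2 * j + 1) n : ℝ))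
      (fun n : ℕ => (Real.log n / Real.log (Real.log n)) ^ (1 / (j : ℝ))) :=
  ⟨theta_even hj, theta_odd hj⟩

end Pool.Agent.Results.MP_6d7b3f_co.GrowthRate
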